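import Mathlib

/-! # Multi-scale gadgets for nonrepetitive colourings (MP_b63a31_co, Q2): definitions

A gadget is a finite graph on `Bool ⊕ V`; its two ends are `inl false`, `inl true` and `V` is its
interior.  `step n g` has two layers of `n` hubs between its ends; the first end is linked to all
hubs of the first layer, these to all hubs of the second layer, and these to the second end; every
link is a copy of `g`. -/

set_option autoImplicit false

namespace Pool.Agent.Helper97.NR

open Sum

/-- A gadget: a finite graph on `Bool ⊕ V` (ends `inl false`, `inl true`, interior `V`). -/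
structure Gad where
  V : Type
  fin : Fintype V
  A : SimpleGraph (Bool ⊕ V)

attribute [instance] Gad.fin

/-- The links of `step n g`: first end to hub `(false, b)`, hub `(false, a)` to hub `(true, b)`,
hub `(true, a)` to second end. -/
abbrev Link (n : ℕ) : Type := Fin n ⊕ (Fin n × Fin n) ⊕ Fin n

/-- The nodes of `step n g`: ends and hubs. -/
abbrev Node (n : ℕ) : Type := Bool ⊕ (Bool × Fin n)

def src {n : ℕ} : Link n → Node n
  | inl _ => inl false
  | inr (inl ab) => inr (false, ab.1)
  | inr (inr a) => inr (true, a)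

def tgt {n : ℕ} : Link n → Node n
  | inl b => inr (false, b)
  | inr (inl ab) => inr (true, ab.2)
  | inr (inr _) => inl true

/-- The interior of `step n g`. -/
abbrev StepV (n : ℕ) (V : Type) : Type := (Bool × Fin n) ⊕ (Link n × V)

/-- Nodes as vertices of `step n g`. -/
def nd {n : ℕ} {V : Type} : Node n → Bool ⊕ StepV n V
  | inl b => inl b
  | inr h => inr (inl h)

/-- The copy of the gadget in the link `l`. -/
def emb {n : ℕ} {V : Type} (l : Link n) : Bool ⊕ V → Bool ⊕ StepV n V
  | inl false => nd (src l)
  | inl true => nd (tgt l)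
  | inr z => inr (inr (l, z))

theorem nd_inj {n : ℕ} {V : Type} : Function.Injective (nd : Node n → Bool ⊕ StepV n V) := by
  rintro (a | a) (b | b) h <;> simp_all [nd]

theorem src_ne_tgt {n : ℕ} (l : Link n) : src l ≠ tgt l := by
  rcases l with b | ab | a <;> simp [src, tgt]

theorem nd_ne_int {n : ℕ} {V : Type} (x : Node n) (p : Link n × V) :
    (nd x : Bool ⊕ StepV n V) ≠ inr (inr p) := by
  rcases x with a | a <;> simp [nd]

theorem emb_inj {n : ℕ} {V : Type} (l : Link n) :
    Function.Injective (emb l : Bool ⊕ V → Bool ⊕ StepV n V) := by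
  have hst : (nd (src l) : Bool ⊕ StepV n V) ≠ nd (tgt l) := fun h => src_ne_tgt l (nd_inj h)
  rintro ((_ | _) | a) ((_ | _) | b) h
  · rfl
  · exact absurd h hst
  · exact absurd h (nd_ne_int _ _)
  · exact absurd h.symm hst
  · rfl
  · exact absurd h (nd_ne_int _ _)
  · exact absurd h.symm (nd_ne_int _ _)
  · exact absurd h.symm (nd_ne_int _ _)
  · simp only [emb, inr.injEq, Prod.mk.injEq, true_and] at h
    rw [h]

/-- The graph of `step n g`. -/
def stepA (n : ℕ) (g : Gad) : SimpleGraph (Bool ⊕ StepV n g.V) where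
  Adj := fun x y => ∃ (l : Link n) (u v : Bool ⊕ g.V),
    g.A.Adj u v ∧ emb l u = x ∧ emb l v = y
  symm := ⟨by
    rintro x y ⟨l, u, v, h, hx, hy⟩
    exact ⟨l, v, u, h.symm, hy, hx⟩⟩
  loopless := ⟨by
    rintro x ⟨l, u, v, h, hx, hy⟩
    have : u = v := emb_inj l (hx.trans hy.symm)
    subst this
    exact g.A.loopless.irrefl _ h⟩

/-- `step n g`. -/
abbrev step (n : ℕ) (g : Gad) : Gad where
  V := StepV n g.V
  fin := inferInstance
  A := stepA n g

/-- The gadget with empty interior: one edge between the ends. -/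
def base : Gad where
  V := Empty
  fin := inferInstance
  A := ⊤

/-! ### Colour words -/

/-- Simple paths between the ends with exactly `R` interior vertices (list of interior vertices). -/
def IsThrough (g : Gad) (R : ℕ) (p : List g.V) : Prop :=
  p.length = R ∧ p.Nodup ∧ List.IsChain g.A.Adj (inl false :: (p.map inr ++ [inl true]))

/-- No square: there is no simple path `p ++ q` with `p`, `q` coloured alike. -/
def NonRep {W : Type} {k : ℕ} (G : SimpleGraph W) (c : W → Fin k) : Prop :=
  ∀ p q : List W, p ≠ [] → (p ++ q).Nodup → List.IsChain G.Adj (p ++ q) → p.map c ≠ q.map c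

/-- The set of colour words of the simple paths through the gadget with `R` interior vertices. -/
def words (g : Gad) (R k : ℕ) (c : Bool ⊕ g.V → Fin k) : Set (List (Fin k)) :=
  {w | ∃ p : List g.V, IsThrough g R p ∧ p.map (fun z => c (inr z)) = w}

/-- At least `M` words through the gadget in every nonrepetitive colouring by `k` colours. -/
def ManyWords (g : Gad) (R k M : ℕ) : Prop :=
  ∀ c : Bool ⊕ g.V → Fin k, NonRep g.A c → M ≤ (words g R k c).ncard

/-! ### Length of the gadget -/

/-- The ends are at distance at least `R + 1`, witnessed by a position function. -/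
def Long (g : Gad) (R : ℕ) : Prop :=
  ∃ pos : Bool ⊕ g.V → ℕ, pos (inl false) = 0 ∧ pos (inl true) = R + 1 ∧
    (∀ x, pos x ≤ R + 1) ∧ ∀ x y, g.A.Adj x y → pos y ≤ pos x + 1

/-! ### Families of branch sets -/

/-- `B` contains an end of the gadget. -/
def HasEnd {V : Type} (B : Set (Bool ⊕ V)) : Prop := ∃ b : Bool, inl b ∈ B

/-- Some vertex of `B` is adjacent to some vertex of `C`. -/
def Touch {W : Type} (G : SimpleGraph W) (B C : Set W) : Prop := ∃ x ∈ B, ∃ y ∈ C, G.Adj x y

/-- Weak connectedness: a set `S` of interior vertices which meets `B` and does not contain `B` is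
left by an edge inside `B`. -/
def Conn (g : Gad) (B : Set (Bool ⊕ g.V)) : Prop :=
  ∀ S : Set g.V, (∃ z ∈ S, inr z ∈ B) → (∃ y ∈ B, y ∉ inr '' S) →
    ∃ z ∈ S, inr z ∈ B ∧ ∃ y ∈ B, y ∉ inr '' S ∧ g.A.Adj (inr z) y

/-- Radius at most `r`, in terms of functions which are 1-Lipschitz along the edges inside `B`. -/
def Diam (g : Gad) (r : ℕ) (B : Set (Bool ⊕ g.V)) : Prop :=
  ∀ f : Bool ⊕ g.V → ℕ, (∀ x ∈ B, ∀ y ∈ B, g.A.Adj x y → f y ≤ f x + 1) →
    ∀ x ∈ B, ∀ y ∈ B, f y ≤ f x + 2 * r

/-- Every family of pairwise disjoint branch sets of radius at most `r` has an orientation of its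
adjacency relation with at most `D` arcs out of every set without an end; arcs between a set
without and a set with an end start at the set without an end. -/
def Sparse (g : Gad) (r D : ℕ) : Prop :=
  ∀ (ι : Type) [Fintype ι] (B : ι → Set (Bool ⊕ g.V)),
    (∀ i j, i ≠ j → Disjoint (B i) (B j)) →
    (∀ i, Conn g (B i)) →
    (∀ i, ¬ HasEnd (B i) → Diam g r (B i)) →
    ∃ Out : ι → ι → Prop,
      (∀ i, ¬ HasEnd (B i) → {j | Out i j}.ncard ≤ D) ∧
      ∀ i j, i ≠ j → ¬ HasEnd (B i) → Touch g.A (B i) (B j) →
        (HasEnd (B j) → Out i j) ∧ (Out i j ∨ Out j i)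

end Pool.Agent.Helper97.NR
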