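import Pool.Agent.Helper97.NR.Words
import Pool.Agent.Helper82.NR.L
import Pool.Agent.Helper28.NR.X2
import Pool.Agent.H25.NR.X4
import Pool.Agent.Helper79.NR.N1

set_option autoImplicit false

namespace Pool.Agent.Helper97.NR

open Sum

/-- The invariant of the construction at scale `i`. -/
structure Inv (h : ℕ → ℕ) (g : Gad) (R i e k : ℕ) : Prop where
  len : R + 1 = 3 ^ i
  long : Long g R
  words : ManyWords g R k (2 ^ e)
  sparse : ∀ r, Sparse g r (2 + 2 * 4 ^ h (4 * r + 1))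

theorem inv_base (h : ℕ → ℕ) (k : ℕ) : Inv h base 0 0 0 k :=
  ⟨rfl, long_base, by simpa using manyWords_base k, fun r => sparse_base _ _⟩

theorem inv_thin {h : ℕ → ℕ} {g : Gad} {R i k : ℕ} (H : Inv h g R i 0 k) :
    Inv h (step 1 g) (3 * R + 2) (i + 1) 0 k := by
  refine ⟨?_, long_step H.long, ?_, fun r => ?_⟩
  · rw [pow_succ, ← H.len]; ring
  · have := manyWords_step_one (n := 1) one_pos (by simpa using H.words)
    simpa using this
  · refine sparse_step (R := R) (by omega) (H.sparse r) (Or.inl ?_)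
    have : 1 ≤ 4 ^ h (4 * r + 1) := Nat.one_le_pow _ _ (by norm_num)
    omega

theorem inv_grow {h : ℕ → ℕ} (hm : Monotone h) {g : Gad} {R i e k : ℕ} (hk : 0 < k)
    (hν : 1 ≤ h (3 ^ i)) (hkν : k ≤ 2 ^ h (3 ^ i)) (H : Inv h g R i e k) :
    Inv h (step (k * 2 ^ h (3 ^ i)) g) (3 * R + 2) (i + 1) (3 * e + (h (3 ^ i) - 1)) k := by
  refine ⟨?_, long_step H.long, ?_, fun r => ?_⟩
  · rw [pow_succ, ← H.len]; ring
  · refine manyWords_step hk (by positivity) rfl H.words (le_of_eq ?_)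
    obtain ⟨ν, hν'⟩ : ∃ ν, h (3 ^ i) = ν + 1 := ⟨h (3 ^ i) - 1, by omega⟩
    rw [hν', Nat.add_sub_cancel, ← pow_mul, ← pow_add, mul_comm 2, ← pow_succ]
    congr 1
    ring
  · refine sparse_step (R := R) (by omega) (H.sparse r) ?_
    by_cases h4 : 4 * r < R
    · exact Or.inr ⟨H.long, h4⟩
    · left
      have h5 : k * 2 ^ h (3 ^ i) ≤ 4 ^ h (4 * r + 1) := by
        calc k * 2 ^ h (3 ^ i) ≤ 2 ^ h (3 ^ i) * 2 ^ h (3 ^ i) := Nat.mul_le_mul_right _ hkν
          _ = 4 ^ h (3 ^ i) := by rw [← mul_pow]; norm_num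
          _ ≤ 4 ^ h (4 * r + 1) := Nat.pow_le_pow_right (by norm_num)
            (hm (by rw [← H.len]; omega))
      omega

theorem exists_thin (h : ℕ → ℕ) (k i : ℕ) : ∃ (g : Gad) (R : ℕ), Inv h g R i 0 k := by
  induction i with
  | zero => exact ⟨base, 0, inv_base h k⟩
  | succ m ih =>
    obtain ⟨g, R, H⟩ := ih
    exact ⟨_, _, inv_thin H⟩

theorem exists_grown {h : ℕ → ℕ} (hm : Monotone h) {k i₀ : ℕ} (hk : 0 < k)
    (h0 : ∀ i, i₀ ≤ i → 1 ≤ h (3 ^ i) ∧ k ≤ 2 ^ h (3 ^ i)) (m : ℕ) :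
    ∃ (g : Gad) (R e : ℕ), Inv h g R (i₀ + m) e k ∧
      (e : ℝ) = 3 ^ (i₀ + m) *
        ∑ j ∈ Finset.range m, ((h (3 ^ (i₀ + j)) : ℝ) - 1) / 3 ^ (i₀ + j + 1) := by
  induction m with
  | zero =>
    obtain ⟨g, R, H⟩ := exists_thin h k i₀
    exact ⟨g, R, 0, H, by simp⟩
  | succ m ih =>
    obtain ⟨g, R, e, H, he⟩ := ih
    have h1 := h0 (i₀ + m) (by omega)
    refine ⟨_, _, 3 * e + (h (3 ^ (i₀ + m)) - 1), inv_grow hm hk h1.1 h1.2 H, ?_⟩
    rw [Finset.sum_range_succ, Nat.cast_add, Nat.cast_mul, he, Nat.cast_sub h1.1]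
    push_cast
    have : (3 : ℝ) ^ (i₀ + m + 1) ≠ 0 := by positivity
    rw [← add_assoc, pow_succ (3 : ℝ) (i₀ + m)]
    field_simp

theorem ncard_words_le (g : Gad) (R k : ℕ) (c : Bool ⊕ g.V → Fin k) :
    (words g R k c).ncard ≤ k ^ R := by
  have h1 : (words g R k c) ⊆ {l : List (Fin k) | l.length = R} := by
    rintro w ⟨p, hp, rfl⟩
    simp [hp.1]
  have h2 := Set.ncard_le_ncard h1 (List.finite_length_eq (Fin k) R)
  have h3 : {l : List (Fin k) | l.length = R}.ncard = k ^ R := by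
    rw [← Nat.card_coe_set_eq]
    have : Nat.card (List.Vector (Fin k) R) = k ^ R := by
      rw [Nat.card_eq_fintype_card, card_vector, Fintype.card_fin]
    exact this
  omega

theorem exists_gad {h : ℕ → ℕ} (hm : Monotone h)
    (hdiv : ¬ Summable (fun i : ℕ => (h (3 ^ i) : ℝ) / 3 ^ i)) (k : ℕ) :
    ∃ g : Gad, (∀ r, Sparse g r (2 + 2 * 4 ^ h (4 * r + 1))) ∧
      ∀ c : Bool ⊕ g.V → Fin k, ¬ NonRep g.A c := by
  rcases Nat.eq_zero_or_pos k with rfl | hk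
  · exact ⟨base, fun r => sparse_base _ _, fun c => (c (inl false)).elim0⟩
  have hgeo : Summable (fun i : ℕ => (1 : ℝ) / 3 ^ i) := by
    simpa [one_div] using (summable_geometric_of_lt_one (r := (3 : ℝ)⁻¹) (by norm_num)
      (by norm_num))
  -- `h` is unbounded
  obtain ⟨i₀, hi₀⟩ : ∃ i₀, k ≤ h (3 ^ i₀) := by
    by_contra hcon
    push Not at hcon
    refine hdiv (Summable.of_nonneg_of_le (fun i => by positivity) (fun i => ?_)
      (hgeo.mul_left (k : ℝ)))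
    rw [mul_one_div]
    have : (h (3 ^ i) : ℝ) ≤ k := by exact_mod_cast (hcon i).le
    gcongr
  have h0 : ∀ i, i₀ ≤ i → 1 ≤ h (3 ^ i) ∧ k ≤ 2 ^ h (3 ^ i) := by
    intro i hi
    have h1 : k ≤ h (3 ^ i) := hi₀.trans (hm (Nat.pow_le_pow_right (by norm_num) hi))
    exact ⟨by omega, h1.trans Nat.lt_two_pow_self.le⟩
  -- the partial sums are unbounded
  have hnn : ∀ j, 0 ≤ ((h (3 ^ (i₀ + j)) : ℝ) - 1) / 3 ^ (i₀ + j + 1) := by
    intro j
    have : (1 : ℝ) ≤ h (3 ^ (i₀ + j)) := by exact_mod_cast (h0 (i₀ + j) (by omega)).1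
    exact div_nonneg (by linarith) (by positivity)
  have hns : ¬ Summable (fun j => ((h (3 ^ (i₀ + j)) : ℝ) - 1) / 3 ^ (i₀ + j + 1)) := by
    intro hs
    refine hdiv ?_
    rw [← summable_nat_add_iff i₀]
    have h2 := (hs.mul_left 3).add ((summable_nat_add_iff i₀).2 hgeo)
    refine h2.congr fun j => ?_
    rw [add_comm i₀ j, pow_succ]
    have : (3 : ℝ) ^ (j + i₀) ≠ 0 := by positivity
    field_simp
    ring
  obtain ⟨m, hm'⟩ : ∃ m, (k : ℝ) < ∑ j ∈ Finset.range m,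
      ((h (3 ^ (i₀ + j)) : ℝ) - 1) / 3 ^ (i₀ + j + 1) := by
    by_contra hcon
    push Not at hcon
    exact hns (summable_of_sum_range_le hnn hcon)
  obtain ⟨g, R, e, H, he⟩ := exists_grown hm hk h0 m
  refine ⟨g, H.sparse, fun c hc => ?_⟩
  have h1 := H.words c hc
  have h2 := ncard_words_le g R k c
  have h3 : k * (R + 1) ≤ e := by
    have h4 : ((k * (R + 1) : ℕ) : ℝ) ≤ (e : ℝ) := by
      rw [he, H.len]
      push_cast
      rw [mul_comm]
      gcongr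
    exact_mod_cast h4
  have h5 : k ^ R < 2 ^ e := by
    calc k ^ R ≤ k ^ (R + 1) := Nat.pow_le_pow_right hk (by omega)
      _ < (2 ^ k) ^ (R + 1) := Nat.pow_lt_pow_left Nat.lt_two_pow_self (by omega)
      _ = 2 ^ (k * (R + 1)) := by rw [pow_mul]
      _ ≤ 2 ^ e := Nat.pow_le_pow_right (by norm_num) h3
  omega

end Pool.Agent.Helper97.NR
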