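import Mathlib

/-! # Shallow minors and nonrepetitive colourings (statement vocabulary) -/

set_option autoImplicit false

namespace Pool.Agent.Helper97.NR

/-- `H` is an `r`-shallow minor of `G`: there are pairwise disjoint sets `B i` of vertices of `G`
such that every vertex of `B i` is joined to the centre `x i` by a walk of length at most `r`
inside `B i`, and adjacent vertices `i`, `j` of `H` have an edge of `G` between `B i` and `B j`. -/
def ShallowMinor {V : Type} (G : SimpleGraph V) (r n : ℕ) (H : SimpleGraph (Fin n)) : Prop :=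
  ∃ (B : Fin n → Set V) (x : Fin n → V),
    (∀ i j, i ≠ j → Disjoint (B i) (B j)) ∧
    (∀ i, x i ∈ B i ∧ ∀ y ∈ B i, ∃ p : G.Walk (x i) y, p.length ≤ r ∧ ∀ z ∈ p.support, z ∈ B i) ∧
    ∀ i j, H.Adj i j → ∃ a ∈ B i, ∃ b ∈ B j, G.Adj a b

/-- `∇_r(G) ≤ f(r)` for all `r`: every `r`-shallow minor with `n` vertices has at most `f r * n`
edges. -/
def ExpansionLe {V : Type} (G : SimpleGraph V) (f : ℕ → ℕ) : Prop :=
  ∀ (r n : ℕ) (H : SimpleGraph (Fin n)), ShallowMinor G r n H → H.edgeSet.ncard ≤ f r * n

/-- No path has its first half coloured like its second half. -/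
def Nonrepetitive {V : Type} {k : ℕ} (G : SimpleGraph V) (c : V → Fin k) : Prop :=
  ∀ (u v : V) (p : G.Walk u v), p.IsPath → ∀ t : ℕ, p.support.length = 2 * t →
    (p.support.take t).map c ≠ (p.support.drop t).map c

/-- The expansion function `f` allows unbounded nonrepetitive chromatic number: for every `k` there
is a finite graph with expansion bounded by `f` and with no nonrepetitive colouring by `k`
colours. -/
def UnboundedPi (f : ℕ → ℕ) : Prop :=
  ∀ k : ℕ, ∃ (V : Type) (_ : Fintype V) (G : SimpleGraph V),
    ExpansionLe G f ∧ ¬ ∃ c : V → Fin k, Nonrepetitive G c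

end Pool.Agent.Helper97.NR
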