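import Pool.Agent.Helper97.NR.Defs

set_option autoImplicit false

namespace Pool.Agent.Helper97.NR

open Sum

variable {n : ℕ} {g : Gad}

/-- The interior vertices of a path in the link `l`. -/
def LL (l : Link n) (p : List g.V) : List (Bool ⊕ StepV n g.V) :=
  p.map (fun z => inr (inr (l, z)))

theorem adj_emb (l : Link n) {u v : Bool ⊕ g.V} (h : g.A.Adj u v) :
    (stepA n g).Adj (emb l u) (emb l v) := ⟨l, u, v, h, rfl, rfl⟩

theorem chain_emb (l : Link n) {p : List (Bool ⊕ g.V)} (h : List.IsChain g.A.Adj p) :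
    List.IsChain (stepA n g).Adj (p.map (emb l)) := by
  rw [List.isChain_map]
  exact h.imp fun a b hab => adj_emb l hab

theorem chain_link (l : Link n) {R : ℕ} {p : List g.V} (h : IsThrough g R p) :
    List.IsChain (stepA n g).Adj (nd (src l) :: (LL l p ++ [nd (tgt l)])) := by
  have := chain_emb l h.2.2
  simpa [LL, emb, Function.comp_def] using this

theorem chain_link_rev (l : Link n) {R : ℕ} {p : List g.V} (h : IsThrough g R p) :
    List.IsChain (stepA n g).Adj (nd (tgt l) :: ((LL l p).reverse ++ [nd (src l)])) := by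
  have h1 := chain_link l h
  have h2 : List.IsChain (stepA n g).Adj (nd (src l) :: (LL l p ++ [nd (tgt l)])).reverse := by
    rw [List.isChain_reverse]
    exact h1.imp fun a b hab => hab.symm
  simpa using h2

theorem mem_LL {l : Link n} {p : List g.V} {x : Bool ⊕ StepV n g.V} :
    x ∈ LL l p ↔ ∃ z ∈ p, inr (inr (l, z)) = x := by
  simp [LL]

theorem nodup_LL (l : Link n) {p : List g.V} (h : p.Nodup) : (LL l p).Nodup := by
  refine h.map ?_
  intro a b hab
  simpa using hab

theorem nonRep_emb {k : ℕ} {c : Bool ⊕ StepV n g.V → Fin k} (h : NonRep (stepA n g) c)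
    (l : Link n) : NonRep g.A (fun x => c (emb l x)) := by
  intro p q hp hnd hch heq
  refine h (p.map (emb l)) (q.map (emb l)) ?_ ?_ ?_ ?_
  · simpa using hp
  · rw [← List.map_append]
    exact hnd.map (emb_inj l)
  · rw [← List.map_append]
    exact chain_emb l hch
  · simpa [Function.comp_def] using heq

theorem nd_ne {a b : Node n} (h : a ≠ b) : (nd a : Bool ⊕ StepV n g.V) ≠ nd b :=
  fun h' => h (nd_inj h')

theorem nd_not_mem_LL (a : Node n) (l : Link n) (p : List g.V) :
    (nd a : Bool ⊕ StepV n g.V) ∉ LL l p := by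
  rw [mem_LL]
  rintro ⟨z, -, hz⟩
  exact nd_ne_int a (l, z) hz.symm

theorem LL_disj {l l' : Link n} (h : l ≠ l') (p p' : List g.V) {x : Bool ⊕ StepV n g.V}
    (hx : x ∈ LL l p) (hx' : x ∈ LL l' p') : False := by
  rw [mem_LL] at hx hx'
  obtain ⟨z, -, rfl⟩ := hx
  obtain ⟨z', -, h'⟩ := hx'
  simp only [inr.injEq, Prod.mk.injEq] at h'
  exact h h'.1.symm

/-- A through path of `step n g` from three through paths of `g`. -/
theorem through_step {R : ℕ} (a b : Fin n) {p1 p2 p3 : List g.V} (h1 : IsThrough g R p1)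
    (h2 : IsThrough g R p2) (h3 : IsThrough g R p3) :
    IsThrough (step n g) (3 * R + 2)
      (p1.map (fun z => inr ((inl a : Link n), z)) ++ inl (false, a) ::
        (p2.map (fun z => inr ((inr (inl (a, b)) : Link n), z)) ++ inl (true, b) ::
          p3.map (fun z => inr ((inr (inr b) : Link n), z)))) := by
  refine ⟨?_, ?_, ?_⟩
  · simp only [List.length_append, List.length_map, List.length_cons, h1.1, h2.1, h3.1]
    ring
  · have e1 : (p1.map (fun z => (inr ((inl a : Link n), z) : StepV n g.V))).Nodup :=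
      h1.2.1.map (by intro x y hxy; simpa using hxy)
    have e2 : (p2.map (fun z => (inr ((inr (inl (a, b)) : Link n), z) : StepV n g.V))).Nodup :=
      h2.2.1.map (by intro x y hxy; simpa using hxy)
    have e3 : (p3.map (fun z => (inr ((inr (inr b) : Link n), z) : StepV n g.V))).Nodup :=
      h3.2.1.map (by intro x y hxy; simpa using hxy)
    rw [List.nodup_append', List.nodup_cons, List.nodup_append', List.nodup_cons]
    refine ⟨e1, ⟨?_, e2, ⟨?_, e3⟩, ?_⟩, ?_⟩
    · simp
    · simp
    · intro x hx hx'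
      simp only [List.mem_map, List.mem_cons] at hx hx'
      obtain ⟨z, -, rfl⟩ := hx
      simp at hx'
    · intro x hx hx'
      simp only [List.mem_map, List.mem_cons, List.mem_append] at hx hx'
      obtain ⟨z, -, rfl⟩ := hx
      simp at hx'
  · have c1 := chain_link (inl a : Link n) h1
    have c2 := chain_link (inr (inl (a, b)) : Link n) h2
    have c3 := chain_link (inr (inr b) : Link n) h3
    have key : List.IsChain (stepA n g).Adj
        ((nd (inl false) :: LL (inl a : Link n) p1) ++ nd (inr (false, a)) ::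
          (LL (inr (inl (a, b)) : Link n) p2 ++ nd (inr (true, b)) ::
            (LL (inr (inr b) : Link n) p3 ++ [nd (inl true)]))) := by
      rw [List.isChain_split]
      refine ⟨by simpa [src, tgt] using c1, ?_⟩
      rw [← List.cons_append, List.isChain_split]
      exact ⟨by simpa [src, tgt] using c2, by simpa [src, tgt] using c3⟩
    simpa [LL, nd, step, Function.comp_def] using key

/-- Same-coloured hubs with a common word give a square. -/
theorem no_square {k R : ℕ} {c : Bool ⊕ StepV n g.V → Fin k} (hc : NonRep (stepA n g) c)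
    {a1 a2 a3 b1 b2 : Fin n} (ha : a1 ≠ a2) (hb : b1 ≠ b2) (ha' : a2 ≠ a3)
    (ca : c (nd (inr (false, a1))) = c (nd (inr (false, a2))))
    (cb : c (nd (inr (true, b1))) = c (nd (inr (true, b2)))) (x : List (Fin k))
    (x1 : x ∈ words g R k (fun z => c (emb (inr (inl (a1, b1))) z)))
    (x2 : x ∈ words g R k (fun z => c (emb (inr (inl (a2, b1))) z)))
    (x3 : x ∈ words g R k (fun z => c (emb (inr (inl (a2, b2))) z)))
    (x4 : x ∈ words g R k (fun z => c (emb (inr (inl (a3, b2))) z))) : False := by
  obtain ⟨p1, h1, e1⟩ := x1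
  obtain ⟨p2, h2, e2⟩ := x2
  obtain ⟨p3, h3, e3⟩ := x3
  obtain ⟨p4, h4, e4⟩ := x4
  have c1 := chain_link (inr (inl (a1, b1)) : Link n) h1
  have c2 := chain_link_rev (inr (inl (a2, b1)) : Link n) h2
  have c3 := chain_link (inr (inl (a2, b2)) : Link n) h3
  have c4 := chain_link_rev (inr (inl (a3, b2)) : Link n) h4
  simp only [src, tgt] at c1 c2 c3 c4
  set l1 : Link n := inr (inl (a1, b1)) with hl1
  set l2 : Link n := inr (inl (a2, b1)) with hl2
  set l3 : Link n := inr (inl (a2, b2)) with hl3
  set l4 : Link n := inr (inl (a3, b2)) with hl4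
  have n12 : l1 ≠ l2 := by simp [hl1, hl2, ha]
  have n13 : l1 ≠ l3 := by simp [hl1, hl3, ha]
  have n14 : l1 ≠ l4 := by simp [hl1, hl4, hb]
  have n23 : l2 ≠ l3 := by simp [hl2, hl3, hb]
  have n24 : l2 ≠ l4 := by simp [hl2, hl4, hb]
  have n34 : l3 ≠ l4 := by simp [hl3, hl4, ha']
  set A1 : Bool ⊕ StepV n g.V := nd (inr (false, a1)) with hA1
  set A2 : Bool ⊕ StepV n g.V := nd (inr (false, a2)) with hA2
  set A3 : Bool ⊕ StepV n g.V := nd (inr (false, a3)) with hA3
  set B1 : Bool ⊕ StepV n g.V := nd (inr (true, b1)) with hB1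
  set B2 : Bool ⊕ StepV n g.V := nd (inr (true, b2)) with hB2
  have key : List.IsChain (stepA n g).Adj
      ((A1 :: LL l1 p1) ++ B1 :: ((LL l2 p2).reverse ++ A2 :: (LL l3 p3 ++ B2 ::
        ((LL l4 p4).reverse ++ [A3])))) := by
    rw [List.isChain_split]
    refine ⟨by simpa using c1, ?_⟩
    rw [← List.cons_append, List.isChain_split]
    refine ⟨by simpa using c2, ?_⟩
    rw [← List.cons_append, List.isChain_split]
    exact ⟨by simpa using c3, by simpa using c4⟩
  have key2 : List.IsChain (stepA n g).Adj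
      ((A1 :: (LL l1 p1 ++ B1 :: (LL l2 p2).reverse)) ++
        (A2 :: (LL l3 p3 ++ B2 :: (LL l4 p4).reverse))) := by
    have : ((A1 :: LL l1 p1) ++ B1 :: ((LL l2 p2).reverse ++ A2 :: (LL l3 p3 ++ B2 ::
        ((LL l4 p4).reverse ++ [A3])))) =
        ((A1 :: (LL l1 p1 ++ B1 :: (LL l2 p2).reverse)) ++
        (A2 :: (LL l3 p3 ++ B2 :: (LL l4 p4).reverse))) ++ [A3] := by simp
    rw [this] at key
    exact key.left_of_append
  refine hc _ _ (by simp) ?_ key2 ?_
  · have hAB1 : A1 ≠ B1 := nd_ne (by simp)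
    have hAB2 : A1 ≠ B2 := nd_ne (by simp)
    have hAB3 : A2 ≠ B1 := nd_ne (by simp)
    have hAB4 : A2 ≠ B2 := nd_ne (by simp)
    have hAA : A1 ≠ A2 := nd_ne (by simpa using ha)
    have hBB : B1 ≠ B2 := nd_ne (by simpa using hb)
    have m1 : ∀ l p, A1 ∉ LL (g := g) l p := fun l p => nd_not_mem_LL _ l p
    have m2 : ∀ l p, A2 ∉ LL (g := g) l p := fun l p => nd_not_mem_LL _ l p
    have m3 : ∀ l p, B1 ∉ LL (g := g) l p := fun l p => nd_not_mem_LL _ l p
    have m4 : ∀ l p, B2 ∉ LL (g := g) l p := fun l p => nd_not_mem_LL _ l p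
    have d1 := nodup_LL l1 h1.2.1
    have d2 := nodup_LL l2 h2.2.1
    have d3 := nodup_LL l3 h3.2.1
    have d4 := nodup_LL l4 h4.2.1
    simp only [List.cons_append, List.append_assoc, List.nodup_cons, List.nodup_append',
      List.mem_append, List.mem_cons, List.mem_reverse, List.nodup_reverse, m1, m2, m3, m4,
      hAB1, hAB2, hAA, hAB3.symm, hAB4, hBB, or_false, not_false_eq_true, true_and,
      d1, d2, d3, d4, and_true]
    refine ⟨⟨?_, ?_⟩, ?_⟩
    · intro y hy hy'
      simp only [List.mem_cons, List.mem_reverse] at hy'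
      rcases hy' with rfl | hy'
      · exact m4 _ _ hy
      · exact LL_disj n34 _ _ hy hy'
    · intro y hy hy'
      simp only [List.mem_cons, List.mem_append, List.mem_reverse] at hy hy'
      rcases hy' with rfl | hy' | rfl | hy'
      · exact m2 _ _ hy
      · exact LL_disj n23 _ _ hy hy'
      · exact m4 _ _ hy
      · exact LL_disj n24 _ _ hy hy'
    · intro y hy hy'
      simp only [List.mem_cons, List.mem_append, List.mem_reverse] at hy'
      rcases hy' with rfl | hy' | rfl | hy' | rfl | hy'
      · exact m3 _ _ hy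
      · exact LL_disj n12 _ _ hy hy'
      · exact m2 _ _ hy
      · exact LL_disj n13 _ _ hy hy'
      · exact m4 _ _ hy
      · exact LL_disj n14 _ _ hy hy'
  · simp only [List.map_cons, List.map_append, List.map_reverse]
    have f1 : (LL l1 p1).map c = x := by
      rw [← e1]; simp [LL, emb, Function.comp_def]
    have f2 : (LL l2 p2).map c = x := by
      rw [← e2]; simp [LL, emb, Function.comp_def]
    have f3 : (LL l3 p3).map c = x := by
      rw [← e3]; simp [LL, emb, Function.comp_def]
    have f4 : (LL l4 p4).map c = x := by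
      rw [← e4]; simp [LL, emb, Function.comp_def]
    rw [f1, f2, f3, f4, ca, cb]

end Pool.Agent.Helper97.NR
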