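import Mathlib

/-! # A subexponential growth function with divergent series -/

set_option autoImplicit false

namespace Pool.Agent.Helper97.NR

open Filter Topology

/-- `3 ^ i / (i + 1)` at scale `i`. -/
def hs (m : ℕ) : ℕ := 3 ^ Nat.log 3 m / (Nat.log 3 m + 1)

theorem seq_mono : Monotone (fun i : ℕ => 3 ^ i / (i + 1)) := by
  refine monotone_nat_of_le_succ fun i => ?_
  rw [Nat.le_div_iff_mul_le (by omega)]
  have h1 : 3 ^ i / (i + 1) * (i + 1) ≤ 3 ^ i := Nat.div_mul_le_self _ _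
  have h2 : 3 ^ i / (i + 1) ≤ 3 ^ i := Nat.div_le_self _ _
  calc 3 ^ i / (i + 1) * (i + 1 + 1) = 3 ^ i / (i + 1) * (i + 1) + 3 ^ i / (i + 1) := by ring
    _ ≤ 3 ^ i + 3 ^ i := by omega
    _ ≤ 3 ^ (i + 1) := by rw [pow_succ]; omega

theorem hs_mono : Monotone hs := fun _ _ hab => seq_mono (Nat.log_mono_right hab)

theorem hs_div : ¬ Summable (fun i : ℕ => (hs (3 ^ i) : ℝ) / 3 ^ i) := by
  intro hsum
  have hgeo : Summable (fun i : ℕ => (1 : ℝ) / 3 ^ i) := by
    simpa [one_div] using (summable_geometric_of_lt_one (r := (3 : ℝ)⁻¹) (by norm_num)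
      (by norm_num))
  have h1 := hsum.add hgeo
  have h2 : Summable (fun i : ℕ => 1 / ((i : ℝ) + 1)) := by
    refine Summable.of_nonneg_of_le (fun i => by positivity) (fun i => ?_) h1
    have h3 : hs (3 ^ i) = 3 ^ i / (i + 1) := by
      rw [hs, Nat.log_pow (by norm_num)]
    have h4 : (3 : ℝ) ^ i / ((i : ℝ) + 1) ≤ hs (3 ^ i) + 1 := by
      rw [h3]
      have := Nat.lt_div_mul_add (a := 3 ^ i) (b := i + 1) (by omega)
      rw [div_le_iff₀ (by positivity)]
      have h5 : ((3 ^ i : ℕ) : ℝ) ≤ ((3 ^ i / (i + 1) * (i + 1) + (i + 1) : ℕ) : ℝ) := by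
        exact_mod_cast this.le
      push_cast at h5
      linarith
    rw [← add_div, le_div_iff₀ (by positivity)]
    calc 1 / ((i : ℝ) + 1) * 3 ^ i = 3 ^ i / ((i : ℝ) + 1) := by ring
      _ ≤ _ := h4
  have h6 := (summable_nat_add_iff (f := fun n : ℕ => 1 / (n : ℝ)) 1).1 (by simpa using h2)
  exact Real.not_summable_one_div_natCast h6

/-- The expansion function of the construction at `hs`. -/
def fs (r : ℕ) : ℕ := 2 + 2 * 4 ^ hs (4 * r + 1)

theorem hs_le (m : ℕ) (hm : 0 < m) : (hs m : ℝ) ≤ m / (Nat.log 3 m + 1) := by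
  have h1 : (hs m : ℝ) ≤ ((3 ^ Nat.log 3 m : ℕ) : ℝ) / ((Nat.log 3 m + 1 : ℕ) : ℝ) :=
    Nat.cast_div_le
  have h2 : ((3 ^ Nat.log 3 m : ℕ) : ℝ) ≤ m := by
    exact_mod_cast Nat.pow_log_le_self 3 hm.ne'
  refine h1.trans ?_
  push_cast at h2 ⊢
  gcongr

theorem fs_sub : Tendsto (fun r : ℕ => Real.log (fs r) / r) atTop (𝓝 0) := by
  have hlog : Tendsto (fun r : ℕ => ((Nat.log 3 (4 * r + 1) : ℝ) + 1)) atTop atTop := by
    have h1 : Tendsto (fun r : ℕ => Nat.log 3 (4 * r + 1)) atTop atTop := by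
      refine tendsto_atTop.2 fun b => ?_
      filter_upwards [eventually_ge_atTop (3 ^ b)] with r hr
      exact (Nat.le_log_iff_pow_le (by norm_num) (by omega)).2 (by omega)
    exact tendsto_atTop_add_const_right _ _ (tendsto_natCast_atTop_atTop.comp h1)
  have hlim : Tendsto (fun r : ℕ => Real.log 4 / (r : ℝ) +
      5 * Real.log 4 / ((Nat.log 3 (4 * r + 1) : ℝ) + 1)) atTop (𝓝 (0 + 0)) :=
    (tendsto_const_nhds.div_atTop tendsto_natCast_atTop_atTop).add
      (tendsto_const_nhds.div_atTop hlog)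
  rw [add_zero] at hlim
  refine squeeze_zero' ?_ ?_ hlim
  · filter_upwards with r
    have : (1 : ℝ) ≤ fs r := by
      have : 1 ≤ fs r := by unfold fs; omega
      exact_mod_cast this
    exact div_nonneg (Real.log_nonneg this) (by positivity)
  · filter_upwards [eventually_ge_atTop 1] with r hr
    have hr' : (1 : ℝ) ≤ r := by exact_mod_cast hr
    have h1 : fs r ≤ 4 ^ (1 + hs (4 * r + 1)) := by
      unfold fs
      have : 1 ≤ 4 ^ hs (4 * r + 1) := Nat.one_le_pow _ _ (by norm_num)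
      rw [pow_add]; omega
    have h2 : Real.log (fs r) ≤ (1 + hs (4 * r + 1) : ℝ) * Real.log 4 := by
      have h3 : (fs r : ℝ) ≤ (4 : ℝ) ^ (1 + hs (4 * r + 1)) := by exact_mod_cast h1
      have h4 : (0 : ℝ) < fs r := by
        have : 0 < fs r := by unfold fs; omega
        exact_mod_cast this
      calc Real.log (fs r) ≤ Real.log ((4 : ℝ) ^ (1 + hs (4 * r + 1))) := Real.log_le_log h4 h3
        _ = _ := by rw [Real.log_pow]; push_cast; ring
    have h5 := hs_le (4 * r + 1) (by omega)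
    push_cast at h5
    have hl4 : 0 ≤ Real.log 4 := Real.log_nonneg (by norm_num)
    have hL : (0 : ℝ) < (Nat.log 3 (4 * r + 1) : ℝ) + 1 := by positivity
    rw [div_le_iff₀ (by linarith)]
    calc Real.log (fs r) ≤ (1 + hs (4 * r + 1) : ℝ) * Real.log 4 := h2
      _ ≤ (1 + (4 * (r : ℝ) + 1) / ((Nat.log 3 (4 * r + 1) : ℝ) + 1)) * Real.log 4 := by
        gcongr
      _ ≤ (1 + (5 * (r : ℝ)) / ((Nat.log 3 (4 * r + 1) : ℝ) + 1)) * Real.log 4 := by
        gcongr
        linarith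
      _ = _ := by
        field_simp

end Pool.Agent.Helper97.NR
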