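import Pool.Agent.Helper97.NR.Lists
import Pool.Agent.Helper76.NR.C1

set_option autoImplicit false

namespace Pool.Agent.Helper97.NR

open Sum

theorem words_finite (g : Gad) (R k : ℕ) (c : Bool ⊕ g.V → Fin k) : (words g R k c).Finite := by
  refine (List.finite_length_eq (Fin k) R).subset ?_
  rintro w ⟨p, hp, rfl⟩
  simp [hp.1]

theorem words_length {g : Gad} {R k : ℕ} {c : Bool ⊕ g.V → Fin k} {w : List (Fin k)}
    (h : w ∈ words g R k c) : w.length = R := by
  obtain ⟨p, hp, rfl⟩ := h
  simp [hp.1]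

/-- The words as a finset. -/
noncomputable def wset (g : Gad) (R k : ℕ) (c : Bool ⊕ g.V → Fin k) : Finset (List (Fin k)) :=
  (words_finite g R k c).toFinset

theorem mem_wset {g : Gad} {R k : ℕ} {c : Bool ⊕ g.V → Fin k} {w : List (Fin k)} :
    w ∈ wset g R k c ↔ w ∈ words g R k c := by simp [wset]

theorem card_wset (g : Gad) (R k : ℕ) (c : Bool ⊕ g.V → Fin k) :
    (wset g R k c).card = (words g R k c).ncard := by
  rw [wset, Set.ncard_eq_toFinset_card _ (words_finite g R k c)]

/-- Concatenation of words. -/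
theorem words_step {n R k : ℕ} {g : Gad} {c : Bool ⊕ StepV n g.V → Fin k} (a b : Fin n)
    {x1 x2 x3 : List (Fin k)}
    (h1 : x1 ∈ words g R k (fun z => c (emb (inl a) z)))
    (h2 : x2 ∈ words g R k (fun z => c (emb (inr (inl (a, b))) z)))
    (h3 : x3 ∈ words g R k (fun z => c (emb (inr (inr b)) z))) :
    x1 ++ c (nd (inr (false, a))) :: (x2 ++ c (nd (inr (true, b))) :: x3) ∈
      words (step n g) (3 * R + 2) k c := by
  obtain ⟨p1, h1, rfl⟩ := h1
  obtain ⟨p2, h2, rfl⟩ := h2
  obtain ⟨p3, h3, rfl⟩ := h3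
  refine ⟨_, through_step a b h1 h2 h3, ?_⟩
  simp [emb, nd, Function.comp_def]

/-- W2 -/
theorem manyWords_step_one {n k R : ℕ} {g : Gad} (hn : 0 < n) (h : ManyWords g R k 1) :
    ManyWords (step n g) (3 * R + 2) k 1 := by
  intro c hc
  have e : ∀ l : Link n, ∃ x, x ∈ words g R k (fun z => c (emb l z)) := by
    intro l
    have := h _ (nonRep_emb hc l)
    exact Set.nonempty_of_ncard_ne_zero (by omega)
  obtain ⟨x1, h1⟩ := e (inl ⟨0, hn⟩)
  obtain ⟨x2, h2⟩ := e (inr (inl (⟨0, hn⟩, ⟨0, hn⟩)))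
  obtain ⟨x3, h3⟩ := e (inr (inr ⟨0, hn⟩))
  have := words_step _ _ h1 h2 h3
  exact (Set.ncard_pos (words_finite (step n g) _ _ _)).2 ⟨_, this⟩

/-- W3 -/
theorem manyWords_base (k : ℕ) : ManyWords base 0 k 1 := by
  intro c _
  have : ([] : List (Fin k)) ∈ words base 0 k c := by
    refine ⟨[], ⟨rfl, List.nodup_nil, ?_⟩, rfl⟩
    show List.IsChain base.A.Adj [inl false, inl true]
    rw [List.isChain_cons_cons]
    refine ⟨?_, List.isChain_singleton _⟩
    show (⊤ : SimpleGraph (Bool ⊕ Empty)).Adj (inl false) (inl true)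
    simp
  exact (Set.ncard_pos (words_finite _ _ _ _)).2 ⟨_, this⟩

/-- W1: the step for the words. -/
theorem manyWords_step {n n' k R M M' : ℕ} {g : Gad} (hk : 0 < k) (hn' : 0 < n')
    (hn : n = k * n') (h : ManyWords g R k M) (hM' : 2 * M' ≤ n' * M ^ 3) :
    ManyWords (step n g) (3 * R + 2) k M' := by
  classical
  intro c hc
  have : Nonempty (Fin k) := ⟨⟨0, hk⟩⟩
  -- hubs of one colour in each layer
  have pick : ∀ s : Bool, ∃ (γ : Fin k) (A : Finset (Fin n)), A.card = n' ∧
      ∀ a ∈ A, c (nd (inr (s, a))) = γ := by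
    intro s
    obtain ⟨γ, hγ⟩ := Fintype.exists_le_card_fiber_of_mul_le_card
      (fun a : Fin n => c (nd (inr (s, a)))) (n := n') (by simp [hn])
    obtain ⟨A, hA, hA'⟩ := Finset.exists_subset_card_eq hγ
    exact ⟨γ, A, hA', fun a ha => by simpa using hA ha⟩
  obtain ⟨γ, A, hA, cA⟩ := pick false
  obtain ⟨δ, B, hB, cB⟩ := pick true
  have hw : ∀ l : Link n, M ≤ (wset g R k (fun z => c (emb l z))).card := by
    intro l
    rw [card_wset]
    exact h _ (nonRep_emb hc l)
  obtain ⟨T, hT, hTc⟩ := Pool.Agent.Helper76.NR.count_two (α := A) (β := B) (Ω := List (Fin k)) (n := n') (M := M) hn'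
    (by simpa using hA) (by simpa using hB)
    (fun a => wset g R k (fun z => c (emb (inl a.1) z)))
    (fun a b => wset g R k (fun z => c (emb (inr (inl (a.1, b.1))) z)))
    (fun a => hw _) (fun a b => hw _) (by
      intro x a1 a2 a3 b1 b2 ha hb ha' x1 x2 x3 x4
      rw [mem_wset] at x1 x2 x3 x4
      exact no_square hc (fun e => ha (Subtype.ext e)) (fun e => hb (Subtype.ext e))
        (fun e => ha' (Subtype.ext e)) ((cA _ a1.2).trans (cA _ a2.2).symm)
        ((cB _ b1.2).trans (cB _ b2.2).symm) x x1 x2 x3 x4)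
  have hBne : Nonempty B := by
    have : B.Nonempty := Finset.card_pos.1 (by omega)
    exact this.to_subtype
  have hAne : Nonempty A := by
    have : A.Nonempty := Finset.card_pos.1 (by omega)
    exact this.to_subtype
  choose! fa fb hf1 hf2 using hT
  let S3 : (List (Fin k) × List (Fin k)) → Finset (List (Fin k)) :=
    fun p => wset g R k (fun z => c (emb (inr (inr (fb p).1)) z))
  have hcard : T.card * M ≤ (T.sigma S3).card := by
    rw [Finset.card_sigma, ← smul_eq_mul]
    exact Finset.card_nsmul_le_sum _ _ _ (fun p _ => hw _)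
  have hle : (T.sigma S3).card ≤ (wset (step n g) (3 * R + 2) k c).card := by
    refine Finset.card_le_card_of_injOn
      (fun q => q.1.1 ++ γ :: (q.1.2 ++ δ :: q.2)) ?_ ?_
    · rintro ⟨p, x3⟩ hq
      simp only [Finset.coe_sigma, Set.mem_sigma_iff, Finset.mem_coe] at hq
      have h1 := (mem_wset.1 (hf1 p hq.1))
      have h2 := (mem_wset.1 (hf2 p hq.1))
      have h3 := mem_wset.1 hq.2
      have := words_step _ _ h1 h2 h3
      rw [cA _ (fa p).2, cB _ (fb p).2] at this
      simpa [mem_wset] using this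
    · rintro ⟨⟨x1, x2⟩, x3⟩ hq ⟨⟨y1, y2⟩, y3⟩ hq' heq
      simp only [Finset.coe_sigma, Set.mem_sigma_iff, Finset.mem_coe] at hq hq'
      have l1 := words_length (mem_wset.1 (hf1 _ hq.1))
      have l2 := words_length (mem_wset.1 (hf2 _ hq.1))
      have l1' := words_length (mem_wset.1 (hf1 _ hq'.1))
      have l2' := words_length (mem_wset.1 (hf2 _ hq'.1))
      simp only at heq l1 l2 l1' l2'
      obtain ⟨e1, e2⟩ := List.append_inj heq (by rw [l1, l1'])
      simp only [List.cons.injEq, true_and] at e2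
      obtain ⟨e3, e4⟩ := List.append_inj e2 (by rw [l2, l2'])
      simp only [List.cons.injEq, true_and] at e4
      subst e1 e3 e4
      rfl
  rw [card_wset] at hle
  have : 2 * M' ≤ 2 * (words (step n g) (3 * R + 2) k c).ncard := by
    calc 2 * M' ≤ n' * M ^ 3 := hM'
      _ = (n' * M ^ 2) * M := by ring
      _ ≤ (2 * T.card) * M := Nat.mul_le_mul_right _ hTc
      _ = 2 * (T.card * M) := by ring
      _ ≤ 2 * (words (step n g) (3 * R + 2) k c).ncard := by
        exact Nat.mul_le_mul_left _ (hcard.trans hle)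
  omega

end Pool.Agent.Helper97.NR
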